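import Pool.Agent.Q35.TT.Stm
import Mathlib.FieldTheory.Perfect

/-!
# Project TT (helper35), job SPE: `S_SPE`. Author of this file: helper149.
-/

set_option autoImplicit false

open Polynomial Pool.Agent.Y720.MZ

namespace Pool.Agent.Q149.TT

open Pool.Agent.Q35.TT

/-! ### Forms -/

section ring

variable {R S : Type} [CommRing R] [CommRing S]

theorem bq_cx (c : Fin 5 → Fin 5 → R) (x y : Fin 2 → R) : bq (cx c y) x = bq (cy c x) y := by
  simp only [bq, cx, cy]
  ring

theorem bd_one (a : Fin 5 → R) (x : Fin 2 → R) : bd a x 1 = a 1 * x 0 ^ 3 + 2 * a 2 * (x 0 ^ 2 * x 1) +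
    3 * a 3 * (x 0 * x 1 ^ 2) + 4 * a 4 * x 1 ^ 3 := rfl

theorem bd_zero (a : Fin 5 → R) (x : Fin 2 → R) : bd a x 0 = 4 * a 0 * x 0 ^ 3 + 3 * a 1 * (x 0 ^ 2 * x 1) +
    2 * a 2 * (x 0 * x 1 ^ 2) + a 3 * x 1 ^ 3 := rfl

theorem euler (a : Fin 5 → R) (x : Fin 2 → R) : x 0 * bd a x 0 + x 1 * bd a x 1 = 4 * bq a x := by
  rw [bd_one, bd_zero, bq]
  ring

theorem bq_map (φ : R →+* S) (a : Fin 5 → R) (x : Fin 2 → R) :
    bq (fun i => φ (a i)) (fun i => φ (x i)) = φ (bq a x) := by
  simp only [bq, map_add, map_mul, map_pow]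

theorem bd_map (φ : R →+* S) (a : Fin 5 → R) (x : Fin 2 → R) (k : Fin 2) :
    bd (fun i => φ (a i)) (fun i => φ (x i)) k = φ (bd a x k) := by
  fin_cases k
  · change bd _ _ 0 = φ (bd _ _ 0)
    simp only [bd_zero, map_add, map_mul, map_pow, map_ofNat]
  · change bd _ _ 1 = φ (bd _ _ 1)
    simp only [bd_one, map_add, map_mul, map_pow, map_ofNat]

theorem map_two (φ : R →+* S) (s : R) : (fun i => φ ((![1, s] : Fin 2 → R) i)) = ![1, φ s] := by
  funext i
  fin_cases i <;> simp

theorem cy_map (φ : R →+* S) (c : Fin 5 → Fin 5 → R) (x : Fin 2 → R) :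
    cy (fun i j => φ (c i j)) (fun i => φ (x i)) = fun j => φ (cy c x j) := by
  funext j
  exact bq_map φ (fun i => c i j) x

/-- the derivative with respect to `x 1` as a form in `y` -/
theorem bd_cx_one (c : Fin 5 → Fin 5 → R) (x y : Fin 2 → R) :
    bd (cx c y) x 1 = bq (fun j => bd (fun i => c i j) x 1) y := by
  simp only [bd_one, bq, cx]
  ring

theorem bd_zero' (x : Fin 2 → R) (k : Fin 2) : bd (fun _ => (0 : R)) x k = 0 := by
  fin_cases k <;> simp [bd]

end ring

/-- a binary quartic form over an algebraically closed field has a zero -/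
theorem exists_zero {A : Type} [Field A] [IsAlgClosed A] (a : Fin 5 → A) : ∃ y : Fin 2 → A, y ≠ 0 ∧ bq a y = 0 := by
  by_cases h4 : a 4 = 0
  · refine ⟨![0, 1], ?_, ?_⟩
    · intro h
      have := congrFun h 1
      simp at this
    · simp [bq, h4]
  · obtain ⟨p, hp⟩ : ∃ p : A[X], p = C (a 0) + C (a 1) * X + C (a 2) * X ^ 2 + C (a 3) * X ^ 3 + C (a 4) * X ^ 4 :=
      ⟨_, rfl⟩
    have hc : p.coeff 4 = a 4 := by
      rw [hp]
      simp [coeff_X_pow]
    have hd : p.degree ≠ 0 := by
      intro h
      have h1 : p.coeff 4 = 0 := coeff_eq_zero_of_degree_lt (by rw [h]; norm_num)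
      exact h4 (hc.symm.trans h1)
    obtain ⟨r, hr⟩ := IsAlgClosed.exists_root p hd
    refine ⟨![1, r], ?_, ?_⟩
    · intro h
      have := congrFun h 0
      simp at this
    · rw [IsRoot.def, hp] at hr
      simp only [eval_add, eval_mul, eval_C, eval_X, eval_pow] at hr
      simp only [bq, Matrix.cons_val_zero, Matrix.cons_val_one]
      linear_combination hr

section field

variable {K : Type} [Field K] [CharZero K]

theorem two_ne (s : K) : (![1, s] : Fin 2 → K) ≠ 0 := by
  intro h
  have := congrFun h 0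
  simp at this

/-- a point of the affine chart is singular if the form and the derivatives in `s` and `t` vanish -/
theorem sing {A : Type} [Field A] [CharZero A] {c : Fin 5 → Fin 5 → A} {s t : A}
    (h0 : bq (cx c ![1, t]) ![1, s] = 0) (h1 : bd (cx c ![1, t]) ![1, s] 1 = 0)
    (h2 : bd (cy c ![1, s]) ![1, t] 1 = 0) :
    (∀ k, bd (cx c ![1, t]) ![1, s] k = 0) ∧ ∀ k, bd (cy c ![1, s]) ![1, t] k = 0 := by
  have e1 := euler (cx c ![1, t]) ![1, s]
  have e2 := euler (cy c ![1, s]) ![1, t]
  rw [← bq_cx, h0, h2] at e2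
  rw [h0, h1] at e1
  simp only [Matrix.cons_val_zero, Matrix.cons_val_one, one_mul, mul_zero, add_zero] at e1 e2
  constructor
  · intro k
    fin_cases k
    · exact e1
    · exact h1
  · intro k
    fin_cases k
    · exact e2
    · exact h2

/-- no line in the branch curve -/
theorem no_line (c : Fin 5 → Fin 5 → K) (hc : Smooth c) (s : K) : cy c ![1, s] ≠ 0 := by
  intro h
  obtain ⟨φ, hφ⟩ : ∃ φ : K →+* AlgebraicClosure K, φ = algebraMap K (AlgebraicClosure K) := ⟨_, rfl⟩
  obtain ⟨y, hy, hy0⟩ := exists_zero (fun j => φ (gd c s j))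
  have hcy : cy (fun i j => φ (c i j)) ![1, φ s] = fun _ => 0 := by
    have h1 := cy_map φ c ![1, s]
    rw [map_two, h] at h1
    rw [h1]
    funext j
    simp
  have e0 : bq (cx (fun i j => φ (c i j)) y) ![1, φ s] = 0 := by
    rw [bq_cx, hcy]
    simp [bq]
  have e1 : bd (cx (fun i j => φ (c i j)) y) ![1, φ s] 1 = 0 := by
    rw [bd_cx_one, ← hy0]
    congr 1
    funext j
    rw [← map_two φ s, bd_map]
    rfl
  have e2 := euler (cx (fun i j => φ (c i j)) y) ![1, φ s]
  rw [e0, e1] at e2
  simp only [Matrix.cons_val_zero, one_mul, mul_zero, add_zero] at e2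
  refine hc ![1, φ s] y (two_ne _) hy ?_ ?_
  · intro k
    rw [← hφ]
    fin_cases k
    · exact e2
    · exact e1
  · intro k
    rw [← hφ, hcy]
    exact bd_zero' _ _

end field

/-! ### The discriminant -/

section disc

variable {K : Type} [Field K]

theorem pq_eq (a : Fin 5 → K) : pq a = qpol (a 0) (a 1) (a 2) (a 3) (a 4) := by
  rw [pq, qpol, Fin.sum_univ_five]
  simp

theorem dc_low (a : Fin 5 → K) (h : (pq a).natDegree < 3) : dc (a 0) (a 1) (a 2) (a 3) (a 4) = 0 := by
  rw [pq_eq] at h
  obtain ⟨-, -, -, h3, h4⟩ := qpol_coeff (a 0) (a 1) (a 2) (a 3) (a 4)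
  rw [coeff_eq_zero_of_natDegree_lt (by omega)] at h3
  rw [coeff_eq_zero_of_natDegree_lt (by omega)] at h4
  rw [dc, dsc, ← h3, ← h4]
  ring

/-- a double root -/
theorem dc_double {A : Type} [Field A] (r : A) (a : Fin 5 → A) (h : (X - C r) * (X - C r) ∣ pq a) :
    dc (a 0) (a 1) (a 2) (a 3) (a 4) = 0 := by
  obtain ⟨p, hp⟩ := h
  by_cases hp0 : pq a = 0
  · exact dc_low a (by rw [hp0]; simp)
  have hpne : p ≠ 0 := by
    rintro rfl
    exact hp0 (by rw [hp, mul_zero])
  have hdeg : (pq a).natDegree ≤ 4 := by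
    rw [pq_eq]
    unfold qpol
    compute_degree
  have hd2 : p.natDegree ≤ 2 := by
    rw [hp, natDegree_mul (mul_ne_zero (X_sub_C_ne_zero r) (X_sub_C_ne_zero r)) hpne,
      natDegree_mul (X_sub_C_ne_zero r) (X_sub_C_ne_zero r), natDegree_X_sub_C] at hdeg
    omega
  obtain ⟨α, β, γ, hq⟩ : ∃ α β γ, p = C α + C β * X + C γ * X ^ 2 := by
    refine ⟨p.coeff 0, p.coeff 1, p.coeff 2, ?_⟩
    conv_lhs => rw [p.as_sum_range_C_mul_X_pow' (n := 3) (by omega)]
    simp [Finset.sum_range_succ]
  have e : pq a = qpol (r ^ 2 * α) (r ^ 2 * β - 2 * r * α) (r ^ 2 * γ - 2 * r * β + α) (β - 2 * r * γ) γ := by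
    rw [hp, hq, qpol]
    simp only [map_add, map_sub, map_mul, map_pow, map_ofNat]
    ring
  rw [pq_eq] at e
  obtain ⟨e0, e1, e2, e3, e4⟩ := qpol_inj e
  rw [e0, e1, e2, e3, e4, dc, dsc]
  ring

theorem squarefree_of_dc {a : Fin 5 → K} (h : dc (a 0) (a 1) (a 2) (a 3) (a 4) ≠ 0) : Squarefree (pq a) := by
  intro q hq
  by_contra hu
  obtain ⟨φ, hφ⟩ : ∃ φ : K →+* AlgebraicClosure K, φ = algebraMap K (AlgebraicClosure K) := ⟨_, rfl⟩
  have hp0 : pq a ≠ 0 := by
    intro h0
    exact h (dc_low a (by rw [h0]; simp))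
  have hq0 : q ≠ 0 := by
    rintro rfl
    rw [zero_mul, zero_dvd_iff] at hq
    exact hp0 hq
  have hd : (q.map φ).degree ≠ 0 := by
    rw [degree_map]
    intro h0
    exact hu (isUnit_iff_degree_eq_zero.2 h0)
  obtain ⟨r, hr⟩ := IsAlgClosed.exists_root _ hd
  have h1 : X - C r ∣ q.map φ := dvd_iff_isRoot.2 hr
  have h2 : (X - C r) * (X - C r) ∣ pq (fun i => φ (a i)) := by
    have h3 : pq (fun i => φ (a i)) = (pq a).map φ := by
      rw [pq_eq, pq_eq, qpol, qpol]
      simp
    rw [h3]
    refine (mul_dvd_mul h1 h1).trans ?_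
    rw [← Polynomial.map_mul]
    exact map_dvd (mapRingHom φ) hq
  have h4 := dc_double r _ h2
  apply h
  apply φ.injective
  rw [map_zero, ← h4, map_dc]

/-- if `g` divides `h²` and `g` is squarefree then `h` is a multiple of `g` -/
theorem prop_of_not_nd {g h : Fin 5 → K} (hdc : dc (g 0) (g 1) (g 2) (g 3) (g 4) ≠ 0) (hnd : ¬ ND g h) :
    ∃ l : K, ∀ j, h j = l * g j := by
  unfold ND at hnd
  push Not at hnd
  obtain ⟨h1, h2⟩ := hnd
  have hsq := squarefree_of_dc hdc
  have hdvd : pq g ∣ pq h := (hsq.dvd_pow_iff_dvd two_ne_zero).1 h1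
  have hg3 : 3 ≤ (pq g).natDegree := by
    by_contra hcon
    exact hdc (dc_low g (by omega))
  have hg4 : (pq g).natDegree ≤ 4 := by
    rw [pq_eq]
    unfold qpol
    compute_degree
  have hg0 : pq g ≠ 0 := by
    intro h0
    rw [h0, natDegree_zero] at hg3
    omega
  obtain ⟨l, hl⟩ : ∃ l : K, pq h = C l * pq g := by
    obtain ⟨q, hq⟩ := hdvd
    by_cases hq0 : q = 0
    · exact ⟨0, by rw [hq, hq0]; simp⟩
    · rw [hq, natDegree_mul hg0 hq0] at h2
      have hqd : q.natDegree = 0 := by omega
      rw [natDegree_eq_zero] at hqd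
      obtain ⟨l, hl⟩ := hqd
      exact ⟨l, by rw [hq, ← hl, mul_comm]⟩
  refine ⟨l, ?_⟩
  rw [pq_eq, pq_eq, qpol] at hl
  have e : qpol (h 0) (h 1) (h 2) (h 3) (h 4) = qpol (l * g 0) (l * g 1) (l * g 2) (l * g 3) (l * g 4) := by
    rw [qpol, hl]
    simp only [qpol, map_mul]
    ring
  obtain ⟨e0, e1, e2, e3, e4⟩ := qpol_inj e
  intro j
  fin_cases j
  · exact e0
  · exact e1
  · exact e2
  · exact e3
  · exact e4

end disc

/-! ### The family -/

section family

/-- the coefficient of `t ^ j`, a polynomial in `s` -/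
noncomputable def gp {R : Type} [CommRing R] (c : Fin 5 → Fin 5 → R) (j : Fin 5) : R[X] :=
  C (c 0 j) + C (c 1 j) * X + C (c 2 j) * X ^ 2 + C (c 3 j) * X ^ 3 + C (c 4 j) * X ^ 4

theorem gp_eval {R : Type} [CommRing R] (c : Fin 5 → Fin 5 → R) (j : Fin 5) (s : R) :
    (gp c j).eval s = cy c ![1, s] j := by
  simp only [gp, cy, bq, eval_add, eval_mul, eval_C, eval_X, eval_pow, Matrix.cons_val_zero, Matrix.cons_val_one]
  ring

theorem gp_map {R S : Type} [CommRing R] [CommRing S] (φ : R →+* S) (c : Fin 5 → Fin 5 → R) (j : Fin 5) :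
    (gp c j).map φ = gp (fun i j => φ (c i j)) j := by
  simp only [gp, Polynomial.map_add, Polynomial.map_mul, map_C, map_X, Polynomial.map_pow]

theorem gp_der {R : Type} [CommRing R] (c : Fin 5 → Fin 5 → R) (j : Fin 5) (s : R) :
    (derivative (gp c j)).eval s = bd (fun i => c i j) ![1, s] 1 := by
  simp only [gp, bd_one, derivative_add, derivative_mul, derivative_C, derivative_X, derivative_X_pow, eval_add,
    eval_mul, eval_C, eval_X, eval_pow, Matrix.cons_val_zero, Matrix.cons_val_one]
  simp
  ring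

theorem gp_zero {R : Type} [CommRing R] {c : Fin 5 → Fin 5 → R} {j : Fin 5} (h : gp c j = 0) (i : Fin 5) :
    c i j = 0 := by
  have h1 : ∀ k, (gp c j).coeff k = 0 := fun k => by rw [h, coeff_zero]
  fin_cases i
  · have := h1 0
    simpa [gp, coeff_X, coeff_C, coeff_X_pow] using this
  · have := h1 1
    simpa [gp, coeff_X, coeff_C, coeff_X_pow] using this
  · have := h1 2
    simpa [gp, coeff_X, coeff_C, coeff_X_pow] using this
  · have := h1 3
    simpa [gp, coeff_X, coeff_C, coeff_X_pow] using this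
  · have := h1 4
    simpa [gp, coeff_X, coeff_C, coeff_X_pow] using this

/-- the polynomial in `t` over the polynomials in `s` -/
noncomputable def PP {R : Type} [CommRing R] (c : Fin 5 → Fin 5 → R) : R[X][X] :=
  C (gp c 0) + C (gp c 1) * X + C (gp c 2) * X ^ 2 + C (gp c 3) * X ^ 3 + C (gp c 4) * X ^ 4

theorem PP_map {R S : Type} [CommRing R] [CommRing S] (φ : R →+* S) (c : Fin 5 → Fin 5 → R) :
    (PP c).map (mapRingHom φ) = PP (fun i j => φ (c i j)) := by
  simp only [PP, Polynomial.map_add, Polynomial.map_mul, map_C, map_X, Polynomial.map_pow, coe_mapRingHom, gp_map]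

variable {A : Type} [Field A]

theorem PP_s (c : Fin 5 → Fin 5 → A) (t : A) : (PP c).eval (C t) =
    C (cx c ![1, t] 0) + C (cx c ![1, t] 1) * X + C (cx c ![1, t] 2) * X ^ 2 + C (cx c ![1, t] 3) * X ^ 3 +
      C (cx c ![1, t] 4) * X ^ 4 := by
  simp only [PP, gp, cx, bq, eval_add, eval_mul, eval_C, eval_X, eval_pow, Matrix.cons_val_zero,
    Matrix.cons_val_one, map_add, map_mul, map_pow, map_one]
  ring

theorem PP_t (c : Fin 5 → Fin 5 → A) (s : A) : (PP c).map (evalRingHom s) =
    C (cy c ![1, s] 0) + C (cy c ![1, s] 1) * X + C (cy c ![1, s] 2) * X ^ 2 + C (cy c ![1, s] 3) * X ^ 3 +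
      C (cy c ![1, s] 4) * X ^ 4 := by
  simp only [PP, Polynomial.map_add, Polynomial.map_mul, map_C, map_X, Polynomial.map_pow, coe_evalRingHom, gp_eval]

theorem eval_quart (a : Fin 5 → A) (s : A) :
    (C (a 0) + C (a 1) * X + C (a 2) * X ^ 2 + C (a 3) * X ^ 3 + C (a 4) * X ^ 4 : A[X]).eval s = bq a ![1, s] := by
  simp only [bq, eval_add, eval_mul, eval_C, eval_X, eval_pow, Matrix.cons_val_zero, Matrix.cons_val_one]
  ring

theorem der_quart (a : Fin 5 → A) (s : A) :
    (derivative (C (a 0) + C (a 1) * X + C (a 2) * X ^ 2 + C (a 3) * X ^ 3 + C (a 4) * X ^ 4 : A[X])).eval s =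
      bd a ![1, s] 1 := by
  simp only [bd_one, derivative_add, derivative_mul, derivative_C, derivative_X, derivative_X_pow, eval_add,
    eval_mul, eval_C, eval_X, eval_pow, Matrix.cons_val_zero, Matrix.cons_val_one]
  simp
  ring

theorem two_map (s t : A) (Q : A[X][X]) : (Q.eval (C t)).eval s = (Q.map (evalRingHom s)).eval t := by
  rw [map_evalRingHom_eval, evalEval]

/-- a double factor gives a singular point -/
theorem double_factor [CharZero A] [IsAlgClosed A] (c : Fin 5 → Fin 5 → A) (a : A[X]) (Q H : A[X][X])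
    (ha : a ≠ 0) (hQ : 0 < Q.natDegree) (he : C a * PP c = Q * Q * H) :
    ∃ s t : A, (∀ k, bd (cx c ![1, t]) ![1, s] k = 0) ∧ ∀ k, bd (cy c ![1, s]) ![1, t] k = 0 := by
  have hQ0 : Q ≠ 0 := by
    rintro rfl
    simp at hQ
  obtain ⟨s, hs⟩ : ∃ s : A, (a * Q.leadingCoeff).eval s ≠ 0 := by
    by_contra hcon
    push Not at hcon
    have h1 : a * Q.leadingCoeff = 0 := Polynomial.funext fun s => by rw [hcon s, eval_zero]
    exact mul_ne_zero ha (leadingCoeff_ne_zero.2 hQ0) h1
  rw [eval_mul] at hs
  have hs1 := left_ne_zero_of_mul hs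
  have hs2 := right_ne_zero_of_mul hs
  have hd : (Q.map (evalRingHom s)).degree ≠ 0 := by
    intro h
    have h1 : (Q.map (evalRingHom s)).coeff Q.natDegree = 0 :=
      coeff_eq_zero_of_degree_lt (by rw [h]; exact_mod_cast hQ)
    rw [coeff_map] at h1
    exact hs2 h1
  obtain ⟨t, ht⟩ := IsAlgClosed.exists_root _ hd
  rw [IsRoot.def] at ht
  have e1 : a * (PP c).eval (C t) = Q.eval (C t) * Q.eval (C t) * H.eval (C t) := by
    have := congrArg (eval (C t)) he
    simpa only [eval_mul, eval_C] using this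
  have e2 : C (a.eval s) * (PP c).map (evalRingHom s) =
      Q.map (evalRingHom s) * Q.map (evalRingHom s) * H.map (evalRingHom s) := by
    have := congrArg (Polynomial.map (evalRingHom s)) he
    simpa only [Polynomial.map_mul, map_C, coe_evalRingHom] using this
  have hq : (Q.eval (C t)).eval s = 0 := by rw [two_map, ht]
  have f0 : bq (cx c ![1, t]) ![1, s] = 0 := by
    have h1 := congrArg (eval s) e1
    simp only [eval_mul, hq, zero_mul] at h1
    rw [PP_s, eval_quart] at h1
    exact (mul_eq_zero.1 h1).resolve_left hs1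
  have f1 : bd (cx c ![1, t]) ![1, s] 1 = 0 := by
    have h1 := congrArg (fun p => (derivative p).eval s) e1
    simp only [derivative_mul, eval_mul, eval_add, hq, zero_mul, mul_zero, add_zero] at h1
    rw [PP_s, eval_quart, der_quart, f0, mul_zero, zero_add] at h1
    exact (mul_eq_zero.1 h1).resolve_left hs1
  have f2 : bd (cy c ![1, s]) ![1, t] 1 = 0 := by
    have h1 := congrArg (fun p => (derivative p).eval t) e2
    simp only [derivative_mul, derivative_C, eval_mul, eval_add, eval_C, ht, zero_mul, mul_zero, add_zero,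
      zero_add] at h1
    rw [PP_t, der_quart] at h1
    exact (mul_eq_zero.1 h1).resolve_left hs1
  exact ⟨s, t, sing f0 f1 f2⟩

end family

section main

variable {K : Type} [Field K] [CharZero K]

omit [CharZero K] in
/-- the discriminant as a polynomial -/
theorem dc_eval (c : Fin 5 → Fin 5 → K) (s : K) : (dc (gp c 0) (gp c 1) (gp c 2) (gp c 3) (gp c 4)).eval s =
    dc (cy c ![1, s] 0) (cy c ![1, s] 1) (cy c ![1, s] 2) (cy c ![1, s] 3) (cy c ![1, s] 4) := by
  have h := map_dc (evalRingHom s) (gp c 0) (gp c 1) (gp c 2) (gp c 3) (gp c 4)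
  simp only [coe_evalRingHom, gp_eval] at h
  exact h.symm

theorem dc_ne (c : Fin 5 → Fin 5 → K) (hc : Smooth c) : dc (gp c 0) (gp c 1) (gp c 2) (gp c 3) (gp c 4) ≠ 0 := by
  intro h0
  obtain ⟨φ, hφ⟩ : ∃ φ : K →+* AlgebraicClosure K, φ = algebraMap K (AlgebraicClosure K) := ⟨_, rfl⟩
  let F := FractionRing K[X]
  have hinj : Function.Injective (algebraMap K[X] F) := IsFractionRing.injective K[X] F
  have : CharZero F := charZero_of_injective_algebraMap hinj
  have h1 : dc (algebraMap K[X] F (gp c 0)) (algebraMap K[X] F (gp c 1)) (algebraMap K[X] F (gp c 2))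
      (algebraMap K[X] F (gp c 3)) (algebraMap K[X] F (gp c 4)) = 0 := by
    rw [map_dc, h0, map_zero]
  have hPP : (PP c).map (algebraMap K[X] F) = qpol (algebraMap K[X] F (gp c 0)) (algebraMap K[X] F (gp c 1))
      (algebraMap K[X] F (gp c 2)) (algebraMap K[X] F (gp c 3)) (algebraMap K[X] F (gp c 4)) := by
    simp only [PP, qpol, Polynomial.map_add, Polynomial.map_mul, map_C, map_X, Polynomial.map_pow]
  by_cases hd : 3 ≤ ((PP c).map (algebraMap K[X] F)).natDegree
  · have hns : ¬ ((PP c).map (algebraMap K[X] F)).Separable := by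
      intro hsep
      rw [hPP] at hsep hd
      exact dc_ne_zero hsep hd h1
    rw [PerfectField.separable_iff_squarefree] at hns
    unfold Squarefree at hns
    push Not at hns
    obtain ⟨q, ⟨r, hr⟩, hu⟩ := hns
    have hP0 : (PP c).map (algebraMap K[X] F) ≠ 0 := by
      intro h
      rw [h, natDegree_zero] at hd
      omega
    have hq0 : q ≠ 0 := by
      rintro rfl
      exact hP0 (by rw [hr, zero_mul, zero_mul])
    have hqd : 0 < q.natDegree := by
      rw [Nat.pos_iff_ne_zero]
      intro h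
      apply hu
      rw [isUnit_iff_degree_eq_zero, degree_eq_natDegree hq0, h]
      rfl
    obtain ⟨b, hb, hbq⟩ := IsLocalization.integerNormalization_spec (nonZeroDivisors K[X]) q
    obtain ⟨b', hb', hbr⟩ := IsLocalization.integerNormalization_spec (nonZeroDivisors K[X]) r
    obtain ⟨Q, hQ⟩ : ∃ Q, Q = IsLocalization.integerNormalization (nonZeroDivisors K[X]) q := ⟨_, rfl⟩
    obtain ⟨H, hH⟩ : ∃ H, H = IsLocalization.integerNormalization (nonZeroDivisors K[X]) r := ⟨_, rfl⟩
    rw [← hQ] at hbq
    rw [← hH] at hbr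
    have hb0 : b ≠ 0 := nonZeroDivisors.ne_zero hb
    have hb0' : b' ≠ 0 := nonZeroDivisors.ne_zero hb'
    have e1 : C (b * b * b') * PP c = Q * Q * H := by
      apply Polynomial.map_injective _ hinj
      rw [Polynomial.map_mul, Polynomial.map_mul, Polynomial.map_mul, hbq, hbr, hr, map_C, map_mul, map_mul,
        Algebra.smul_def, Algebra.smul_def]
      simp only [Polynomial.algebraMap_apply, map_mul]
      ring
    have hQd : 0 < Q.natDegree := by
      have h2 : (Q.map (algebraMap K[X] F)).natDegree = q.natDegree := by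
        rw [hbq, Algebra.smul_def, Polynomial.algebraMap_apply, natDegree_C_mul]
        exact fun h => hb0 (hinj (by rw [h, map_zero]))
      rw [natDegree_map_eq_of_injective hinj] at h2
      omega
    have e2 : C ((b * b * b').map φ) * PP (fun i j => φ (c i j)) =
        Q.map (mapRingHom φ) * Q.map (mapRingHom φ) * H.map (mapRingHom φ) := by
      have := congrArg (Polynomial.map (mapRingHom φ)) e1
      simpa only [Polynomial.map_mul, map_C, coe_mapRingHom, PP_map] using this
    obtain ⟨s, t, h3, h4⟩ := double_factor (fun i j => φ (c i j)) ((b * b * b').map φ) (Q.map (mapRingHom φ))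
      (H.map (mapRingHom φ)) (by
        rw [Ne, Polynomial.map_eq_zero_iff φ.injective]
        exact mul_ne_zero (mul_ne_zero hb0 hb0) hb0') (by
        rw [natDegree_map_eq_of_injective (Polynomial.map_injective φ φ.injective)]
        exact hQd) e2
    refine hc ![1, s] ![1, t] (two_ne s) (two_ne t) ?_ ?_
    · rw [← hφ]
      exact h3
    · rw [← hφ]
      exact h4
  · push Not at hd
    rw [hPP] at hd
    obtain ⟨-, -, -, h3, h4⟩ := qpol_coeff (algebraMap K[X] F (gp c 0)) (algebraMap K[X] F (gp c 1))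
      (algebraMap K[X] F (gp c 2)) (algebraMap K[X] F (gp c 3)) (algebraMap K[X] F (gp c 4))
    rw [coeff_eq_zero_of_natDegree_lt (by omega)] at h3
    rw [coeff_eq_zero_of_natDegree_lt (by omega)] at h4
    have g3 : gp c 3 = 0 := hinj (by rw [← h3, map_zero])
    have g4 : gp c 4 = 0 := hinj (by rw [← h4, map_zero])
    have z3 := gp_zero g3
    have z4 := gp_zero g4
    refine hc ![1, 0] ![0, 1] (two_ne 0) ?_ ?_ ?_
    · intro h
      have := congrFun h 1
      simp at this
    · rw [← hφ]
      have e : cx (fun i j => φ (c i j)) ![0, 1] = fun _ => 0 := by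
        funext i
        simp [cx, bq, z4 i]
      intro k
      rw [e]
      exact bd_zero' _ _
    · rw [← hφ]
      have e3 : cy (fun i j => φ (c i j)) ![1, 0] 3 = 0 := by simp [cy, bq, z3]
      have e4 : cy (fun i j => φ (c i j)) ![1, 0] 4 = 0 := by simp [cy, bq, z4]
      intro k
      fin_cases k
      · change bd _ _ 0 = 0
        rw [bd_zero, e3]
        simp
      · change bd _ _ 1 = 0
        rw [bd_one, e4]
        simp

/-- vanishing Wronskian -/
theorem wronsk (a b : K[X]) (hb : b ≠ 0) (h : a * derivative b = derivative a * b) : ∃ κ : K, a = C κ * b := by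
  have key : ∀ a : K[X], a ≠ 0 → a * derivative b = derivative a * b → a.natDegree = b.natDegree := by
    intro a ha h
    have h1 : (a * derivative b).coeff (a.natDegree + b.natDegree - 1) =
      (derivative a * b).coeff (a.natDegree + b.natDegree - 1) := by rw [h]
    rcases Nat.eq_zero_or_pos (a.natDegree + b.natDegree) with h0 | h0
    · omega
    by_cases hb0 : b.natDegree = 0
    · rw [natDegree_eq_zero] at hb0
      obtain ⟨β, hβ⟩ := hb0
      rw [← hβ] at h hb
      rw [derivative_C, mul_zero] at h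
      have h2 : derivative a = 0 := by
        rcases mul_eq_zero.1 h.symm with h | h
        · exact h
        · exact absurd h hb
      rw [← hβ, natDegree_C]
      exact (Polynomial.derivative_eq_zero.1 h2)
    by_cases ha0 : a.natDegree = 0
    · rw [natDegree_eq_zero] at ha0
      obtain ⟨α, hα⟩ := ha0
      rw [← hα] at h ha
      rw [derivative_C, zero_mul] at h
      have h2 : derivative b = 0 := by
        rcases mul_eq_zero.1 h with h | h
        · exact absurd h ha
        · exact h
      exact absurd ((Polynomial.derivative_eq_zero.1 h2)) hb0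
    have h2 : (a * derivative b).coeff (a.natDegree + (b.natDegree - 1)) =
        a.leadingCoeff * (b.natDegree * b.leadingCoeff) := by
      have := coeff_mul_add_eq_of_natDegree_le (le_refl a.natDegree) (natDegree_derivative_le b)
      rw [this, coeff_derivative]
      have e : b.natDegree - 1 + 1 = b.natDegree := by omega
      rw [e]
      simp only [leadingCoeff]
      have e2 : ((b.natDegree - 1 : ℕ) : K) + 1 = (b.natDegree : K) := by
        rw [← Nat.cast_succ]
        congr 1
      rw [e2]
      ring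
    have h3 : (derivative a * b).coeff ((a.natDegree - 1) + b.natDegree) =
        (a.natDegree * a.leadingCoeff) * b.leadingCoeff := by
      have := coeff_mul_add_eq_of_natDegree_le (natDegree_derivative_le a) (le_refl b.natDegree)
      rw [this, coeff_derivative]
      have e : a.natDegree - 1 + 1 = a.natDegree := by omega
      rw [e]
      simp only [leadingCoeff]
      have e2 : ((a.natDegree - 1 : ℕ) : K) + 1 = (a.natDegree : K) := by
        rw [← Nat.cast_succ]
        congr 1
      rw [e2]
      ring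
    have e1 : a.natDegree + (b.natDegree - 1) = a.natDegree + b.natDegree - 1 := by omega
    have e2 : (a.natDegree - 1) + b.natDegree = a.natDegree + b.natDegree - 1 := by omega
    rw [e1] at h2
    rw [e2] at h3
    rw [h2, h3] at h1
    have h4 : (a.leadingCoeff * b.leadingCoeff) * ((b.natDegree : K) - a.natDegree) = 0 := by
      linear_combination h1
    rcases mul_eq_zero.1 h4 with h5 | h5
    · exact absurd h5 (mul_ne_zero (leadingCoeff_ne_zero.2 ha) (leadingCoeff_ne_zero.2 hb))
    · exact (Nat.cast_injective (sub_eq_zero.1 h5)).symm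
  refine ⟨a.coeff b.natDegree / b.leadingCoeff, ?_⟩
  obtain ⟨κ, hκ⟩ : ∃ κ, κ = a.coeff b.natDegree / b.leadingCoeff := ⟨_, rfl⟩
  rw [← hκ]
  by_contra hne
  have h1 : a - C κ * b ≠ 0 := fun h => hne (sub_eq_zero.1 h)
  have h2 : (a - C κ * b) * derivative b = derivative (a - C κ * b) * b := by
    rw [derivative_sub, derivative_mul, derivative_C]
    linear_combination h
  have h3 := key _ h1 h2
  have h4 : (a - C κ * b).coeff b.natDegree = 0 := by
    rw [coeff_sub, coeff_C_mul, hκ, ← leadingCoeff]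
    field_simp [leadingCoeff_ne_zero.2 hb]
    ring
  rw [← h3] at h4
  exact h1 (leadingCoeff_eq_zero.1 h4)

theorem spe : S_SPE := by
  intro K _ _ c hc
  refine ⟨no_line c hc, ?_⟩
  have hfin : {s : K | dc (cy c ![1, s] 0) (cy c ![1, s] 1) (cy c ![1, s] 2) (cy c ![1, s] 3)
      (cy c ![1, s] 4) = 0}.Finite := by
    by_contra hinf
    apply dc_ne c hc
    apply Polynomial.eq_zero_of_infinite_isRoot
    refine Set.Infinite.mono ?_ hinf
    intro s hs
    rw [Set.mem_ofPred_eq] at hs ⊢
    rw [IsRoot.def, dc_eval]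
    exact hs
  have hfin2 : {s : K | dc (cy c ![1, s] 0) (cy c ![1, s] 1) (cy c ![1, s] 2) (cy c ![1, s] 3)
      (cy c ![1, s] 4) ≠ 0 ∧ ¬ ND (cy c ![1, s]) (gd c s)}.Finite := by
    by_contra hinf
    have hw : ∀ i j, gp c i * derivative (gp c j) = derivative (gp c i) * gp c j := by
      intro i j
      apply Polynomial.eq_of_infinite_eval_eq
      refine Set.Infinite.mono ?_ hinf
      rintro s ⟨h1, h2⟩
      obtain ⟨l, hl⟩ := prop_of_not_nd h1 h2
      rw [Set.mem_ofPred_eq, eval_mul, eval_mul, gp_eval, gp_eval, gp_der, gp_der]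
      have hi := hl i
      have hj := hl j
      unfold gd at hi hj
      rw [hi, hj]
      ring
    obtain ⟨j, hj⟩ : ∃ j, gp c j ≠ 0 := by
      by_contra hcon
      push Not at hcon
      apply no_line c hc 0
      funext j
      rw [← gp_eval, hcon j, eval_zero]
      rfl
    choose κ hκ using fun i => wronsk (gp c i) (gp c j) hj (hw i j)
    obtain ⟨φ, hφ⟩ : ∃ φ : K →+* AlgebraicClosure K, φ = algebraMap K (AlgebraicClosure K) := ⟨_, rfl⟩
    have hck : ∀ i k, c k i = κ i * c k j := by
      intro i k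
      have h1 : ∀ m, (gp c i).coeff m = κ i * (gp c j).coeff m := fun m => by rw [← coeff_C_mul, ← hκ]
      fin_cases k
      · have := h1 0
        simpa [gp, coeff_X, coeff_C, coeff_X_pow] using this
      · have := h1 1
        simpa [gp, coeff_X, coeff_C, coeff_X_pow] using this
      · have := h1 2
        simpa [gp, coeff_X, coeff_C, coeff_X_pow] using this
      · have := h1 3
        simpa [gp, coeff_X, coeff_C, coeff_X_pow] using this
      · have := h1 4
        simpa [gp, coeff_X, coeff_C, coeff_X_pow] using this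
    obtain ⟨x, hx, hx0⟩ := exists_zero (fun k => φ (c k j))
    obtain ⟨y, hy, hy0⟩ := exists_zero (fun i => φ (κ i))
    refine hc x y hx hy ?_ ?_
    · rw [← hφ]
      have e : cx (fun i j => φ (c i j)) y = fun _ => 0 := by
        funext k
        have h1 : (fun i => φ (c k i)) = fun i => φ (κ i) * φ (c k j) := by
          funext i
          rw [hck i k, map_mul]
        change bq (fun i => φ (c k i)) y = 0
        rw [h1]
        have h2 : bq (fun i => φ (κ i) * φ (c k j)) y = φ (c k j) * bq (fun i => φ (κ i)) y := by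
          simp only [bq]
          ring
        rw [h2, hy0, mul_zero]
      intro k
      rw [e]
      exact bd_zero' _ _
    · rw [← hφ]
      have e : cy (fun i j => φ (c i j)) x = fun _ => 0 := by
        funext i
        have h1 : (fun k => φ (c k i)) = fun k => φ (κ i) * φ (c k j) := by
          funext k
          rw [hck i k, map_mul]
        change bq (fun k => φ (c k i)) x = 0
        rw [h1]
        have h2 : bq (fun k => φ (κ i) * φ (c k j)) x = φ (κ i) * bq (fun k => φ (c k j)) x := by
          simp only [bq]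
          ring
        rw [h2, hx0, mul_zero]
      intro k
      rw [e]
      exact bd_zero' _ _
  refine (hfin.union hfin2).subset ?_
  intro s hs
  rw [Set.mem_ofPred_eq] at hs
  by_cases h : dc (cy c ![1, s] 0) (cy c ![1, s] 1) (cy c ![1, s] 2) (cy c ![1, s] 3) (cy c ![1, s] 4) = 0
  · exact Or.inl h
  · exact Or.inr ⟨h, hs.resolve_left h⟩

end main

end Pool.Agent.Q149.TT
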