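import Pool.Agent.Q35.TT.Stm2
import Pool.Agent.Q149.TT.Spe
import Pool.Agent.Y720.MZ.Spr
import Pool.Agent.Y720.MZ.Tw
import Pool.Agent.W279.Tri.LocComp

/-!
# Double covers of `ℙ¹ × ℙ¹` branched along smooth curves of bidegree (4,4): Mazur's question for the
affine surfaces (helper149, for project TT of helper35)
-/

set_option autoImplicit false
set_option linter.unusedSectionVars false

open Pool.Agent.Y720.MZ Pool.Agent.Q35.TT Filter Topology

namespace Pool.Agent.Q149.TT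

section move

variable {K : Type} [Field K]

/-- the discriminant of the quartic form -/
def dF {R : Type} [CommRing R] (a : Fin 5 → R) : R := dc (a 0) (a 1) (a 2) (a 3) (a 4)

theorem bq_one (a : Fin 5 → K) (s : K) :
    bq a ![1, s] = a 0 + a 1 * s + a 2 * s ^ 2 + a 3 * s ^ 3 + a 4 * s ^ 4 := by
  simp only [bq, Matrix.cons_val_zero, Matrix.cons_val_one]
  ring

/-- points close to a given point of infinite order -/
theorem move [CharZero K] {L : Type} [NontriviallyNormedField L] [ProperSpace L] (σ : K →+* L)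
    {a : Fin 5 → K} {s w : K} (hw : w ≠ 0) (hF : w ^ 2 = bq a ![1, s]) (hd : dF a ≠ 0)
    (hT : ¬ ∃ n : ℕ, n ≠ 0 ∧ Tor a s w n) {ε : ℝ} (hε : 0 < ε) :
    ∃ t Y : K, t ≠ 0 ∧ ‖σ t‖ < ε ∧ ‖σ (Y - w)‖ < ε ∧ Y ^ 2 = bq a ![1, s + t] := by
  let _ : DecidableEq K := Classical.decEq K
  have hD : dsc (tay a s 1) (rb w (tay a s 0) (tay a s 2) (tay a s 3))
      (rc w (tay a s 0) (tay a s 1) (tay a s 2) (tay a s 3)) ≠ 0 := by
    have h1 := dq_eq w (tay a s 0) (tay a s 1) (tay a s 2) (tay a s 3)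
    rw [dq] at h1
    rw [h1, hF]
    have h2 := dc_shift s (a 0) (a 1) (a 2) (a 3) (a 4)
    have h3 : dc (bq a ![1, s]) (tay a s 0) (tay a s 1) (tay a s 2) (tay a s 3) = dF a := by
      rw [dF, ← h2, bq_one]
      have e0 : tay a s 0 = a 1 + 2 * a 2 * s + 3 * a 3 * s ^ 2 + 4 * a 4 * s ^ 3 := rfl
      have e1 : tay a s 1 = a 2 + 3 * a 3 * s + 6 * a 4 * s ^ 2 := rfl
      have e2 : tay a s 2 = a 3 + 4 * a 4 * s := rfl
      have e3 : tay a s 3 = a 4 := rfl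
      rw [e0, e1, e2, e3]
      congr 1 <;> ring
    rw [h3]
    exact hd
  obtain ⟨t, Y, h1, h2, h3, h4⟩ := quartic_dense σ hw hD (fun h n hn h0 => hT ⟨n, hn, hw, hF, hd, h, h0⟩) hε
  refine ⟨t, Y, h1, h2, h3, ?_⟩
  rw [h4, hF, bq_one, bq_one]
  have e0 : tay a s 0 = a 1 + 2 * a 2 * s + 3 * a 3 * s ^ 2 + 4 * a 4 * s ^ 3 := rfl
  have e1 : tay a s 1 = a 2 + 3 * a 3 * s + 6 * a 4 * s ^ 2 := rfl
  have e2 : tay a s 2 = a 3 + 4 * a 4 * s := rfl
  have e3 : tay a s 3 = a 4 := rfl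
  rw [e0, e1, e2, e3]
  ring

theorem move_inf [CharZero K] {L : Type} [NontriviallyNormedField L] [ProperSpace L] [CompleteSpace L]
    (σ : K →+* L) {a : Fin 5 → K} {s w : K} (hw : w ≠ 0) (hF : w ^ 2 = bq a ![1, s]) (hd : dF a ≠ 0)
    (hT : ¬ ∃ n : ℕ, n ≠ 0 ∧ Tor a s w n) {ε : ℝ} (hε : 0 < ε) :
    {t : K | ‖σ t‖ < ε ∧ ∃ Y : K, ‖σ (Y - w)‖ < ε ∧ Y ^ 2 = bq a ![1, s + t]}.Infinite := by
  have : CharZero L := charZero_of_injective_ringHom σ.injective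
  apply infinite_small σ
  intro δ hδ
  obtain ⟨t, Y, h1, h2, h3, h4⟩ := move σ hw hF hd hT (lt_min hδ hε)
  exact ⟨t, h1, h2.trans_le (min_le_left _ _), h2.trans_le (min_le_right _ _), Y,
    h3.trans_le (min_le_right _ _), h4⟩

end move

section key

variable {K : Type} [Field K]

/-- a polynomial in two variables -/
def P2 (G : K → K → K) : Prop := (∀ t, PF1 fun s => G s t) ∧ ∀ s, PF1 fun t => G s t

namespace P2

theorem const (a : K) : P2 fun _ _ => a := ⟨fun _ => PF1.const a, fun _ => PF1.const a⟩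

theorem fst : P2 fun s _ : K => s := ⟨fun _ => PF1.id', fun s => PF1.const s⟩

theorem snd : P2 fun _ t : K => t := ⟨fun t => PF1.const t, fun _ => PF1.id'⟩

theorem add {G H : K → K → K} (hG : P2 G) (hH : P2 H) : P2 fun s t => G s t + H s t :=
  ⟨fun t => (hG.1 t).add (hH.1 t), fun s => (hG.2 s).add (hH.2 s)⟩

theorem mul {G H : K → K → K} (hG : P2 G) (hH : P2 H) : P2 fun s t => G s t * H s t :=
  ⟨fun t => (hG.1 t).mul (hH.1 t), fun s => (hG.2 s).mul (hH.2 s)⟩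

theorem swap {G : K → K → K} (hG : P2 G) : P2 fun s t => G t s := ⟨hG.2, hG.1⟩

end P2

theorem pf_bq {a : K → Fin 5 → K} (ha : ∀ i, PF1 fun s => a s i) {x : K → Fin 2 → K}
    (hx : ∀ i, PF1 fun s => x s i) : PF1 fun s => bq (a s) (x s) := by
  simp only [bq]
  exact (((((ha 0).mul ((hx 0).pow 4)).add ((ha 1).mul (((hx 0).pow 3).mul (hx 1)))).add
    ((ha 2).mul (((hx 0).pow 2).mul ((hx 1).pow 2)))).add
    ((ha 3).mul ((hx 0).mul ((hx 1).pow 3)))).add ((ha 4).mul ((hx 1).pow 4))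

theorem pf_two (i : Fin 2) : PF1 fun s : K => (![1, s] : Fin 2 → K) i := by
  fin_cases i
  · exact PF1.const 1
  · exact PF1.id'

theorem P2_F4 (c : Fin 5 → Fin 5 → K) : P2 fun s t => F4 c ![1, s] ![1, t] := by
  constructor
  · intro t
    exact pf_bq (a := fun _ => cx c ![1, t]) (x := fun s => ![1, s])
      (fun i => PF1.const (cx c ![1, t] i)) pf_two
  · intro s
    have h1 : ∀ i, PF1 fun t : K => cx c ![1, t] i := fun i =>
      pf_bq (a := fun _ => c i) (x := fun t => ![1, t]) (fun j => PF1.const (c i j)) pf_two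
    exact pf_bq (a := fun t => cx c ![1, t]) (x := fun _ => ![1, s]) h1
      fun i => PF1.const ((![1, s] : Fin 2 → K) i)

/-- polynomials on the surface -/
theorem dec (c : Fin 5 → Fin 5 → K) (f : MvPolynomial (Fin 3) K) :
    ∃ G H : K → K → K, P2 G ∧ P2 H ∧ ∀ u : Fin 3 → K, u 0 ^ 2 = F4 c ![1, u 1] ![1, u 2] →
      MvPolynomial.eval u f = G (u 1) (u 2) + u 0 * H (u 1) (u 2) := by
  induction f using MvPolynomial.induction_on with
  | C a => exact ⟨_, _, P2.const a, P2.const 0, fun u _ => by simp⟩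
  | add p q hp hq =>
    obtain ⟨G₁, H₁, a1, a2, a3⟩ := hp
    obtain ⟨G₂, H₂, b1, b2, b3⟩ := hq
    refine ⟨_, _, a1.add b1, a2.add b2, fun u hu => ?_⟩
    rw [map_add, a3 u hu, b3 u hu]
    ring
  | mul_X p i hp =>
    obtain ⟨G, H, a1, a2, a3⟩ := hp
    fin_cases i
    · refine ⟨_, _, (P2_F4 c).mul a2, a1, fun u hu => ?_⟩
      rw [map_mul, a3 u hu, MvPolynomial.eval_X]
      change (_ + _) * u 0 = _
      linear_combination H (u 1) (u 2) * hu
    · refine ⟨_, _, P2.fst.mul a1, P2.fst.mul a2, fun u hu => ?_⟩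
      rw [map_mul, a3 u hu, MvPolynomial.eval_X]
      change (_ + _) * u 1 = _
      ring
    · refine ⟨_, _, P2.snd.mul a1, P2.snd.mul a2, fun u hu => ?_⟩
      rw [map_mul, a3 u hu, MvPolynomial.eval_X]
      change (_ + _) * u 2 = _
      ring

/-- **the key step** -/
theorem key [CharZero K] {L : Type} [NontriviallyNormedField L] [ProperSpace L] [CompleteSpace L]
    (σ : K →+* L) {c : Fin 5 → Fin 5 → K} {s t w : K} (hw : w ≠ 0)
    (hF : w ^ 2 = F4 c ![1, s] ![1, t]) (hd : dF (cy c ![1, s]) ≠ 0)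
    (hfin : {t' : K | TorX c s t'}.Finite) (hE : {t' : K | dF (cx c ![1, t']) = 0}.Finite)
    (hY : ¬ TorY c s t) {G H : K → K → K} (hG : P2 G) (hH : P2 H) {ε : ℝ} (hε : 0 < ε)
    (h : ∀ s' t' w' : K, ‖σ (s' - s)‖ < ε → ‖σ (t' - t)‖ < ε → ‖σ (w' - w)‖ < ε →
      w' ^ 2 = F4 c ![1, s'] ![1, t'] → G s' t' + w' * H s' t' = 0) :
    ∀ s' t', G s' t' = 0 ∧ H s' t' = 0 := by
  have hw' : σ w ≠ 0 := (map_ne_zero σ).2 hw
  have hδ : 0 < min (ε / 2) ‖σ w‖ := lt_min (by linarith) (norm_pos_iff.2 hw')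
  have hF' : w ^ 2 = bq (cy c ![1, s]) ![1, t] := by rw [hF, F4, bq_cx]
  have hinf := move_inf σ hw hF' hd (fun ⟨n, hn, hn'⟩ => hY ⟨w, n, hn, hn'⟩) hδ
  have hinf2 := hinf.sdiff ((hfin.union hE).preimage ((add_right_injective t).injOn))
  have main : ∀ τ ∈ {t_1 : K | ‖σ t_1‖ < min (ε / 2) ‖σ w‖ ∧ ∃ Y, ‖σ (Y - w)‖ < min (ε / 2) ‖σ w‖ ∧
      Y ^ 2 = bq (cy c ![1, s]) ![1, t + t_1]} \ (fun x => t + x) ⁻¹' ({t' : K | TorX c s t'} ∪ {t' : K | dF (cx c ![1, t']) = 0}),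
      ∀ s', G s' (t + τ) = 0 ∧ H s' (t + τ) = 0 := by
    rintro τ ⟨⟨h1, Y, h2, h3⟩, h4⟩
    rw [Set.mem_preimage, Set.mem_union, not_or] at h4
    obtain ⟨h4, h5⟩ := h4
    have hY0 : Y ≠ 0 := by
      rintro rfl
      rw [zero_sub, map_neg, norm_neg] at h2
      exact absurd (h2.trans_le (min_le_right _ _)) (lt_irrefl _)
    have h3' : Y ^ 2 = bq (cx c ![1, t + τ]) ![1, s] := by rw [h3, bq_cx]
    have hinf3 := move_inf σ hY0 h3' h5 (fun ⟨n, hn, hn'⟩ => h4 ⟨Y, n, hn, hn'⟩) (half_pos hε)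
    have h6 := sq_lemma (h5 : dc (cx c ![1, t + τ] 0) (cx c ![1, t + τ] 1) (cx c ![1, t + τ] 2)
      (cx c ![1, t + τ] 3) (cx c ![1, t + τ] 4) ≠ 0) (hG.1 (t + τ)) (hH.1 (t + τ)) (by
      refine (hinf3.image ((add_right_injective s).injOn)).mono ?_
      rintro _ ⟨ρ, ⟨g1, Z, g2, g3⟩, rfl⟩
      refine ⟨Z, by rw [g3, bq_one], ?_⟩
      refine h _ _ _ ?_ ?_ ?_ ?_
      · rw [add_sub_cancel_left]
        linarith
      · rw [add_sub_cancel_left]
        exact h1.trans_le ((min_le_left _ _).trans (by linarith))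
      · have e : Z - w = (Z - Y) + (Y - w) := by ring
        rw [e, map_add]
        refine (norm_add_le _ _).trans_lt ?_
        have := h2.trans_le (min_le_left _ _)
        linarith
      · rw [g3]
        rfl)
    exact fun s' => ⟨h6.1 s', h6.2 s'⟩
  intro s' t'
  constructor
  · refine (hG.2 s').zero ((hinf2.image ((add_right_injective t).injOn)).mono ?_) t'
    rintro _ ⟨τ, hτ, rfl⟩
    exact (main τ hτ s').1
  · refine (hH.2 s').zero ((hinf2.image ((add_right_injective t).injOn)).mono ?_) t'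
    rintro _ ⟨τ, hτ, rfl⟩
    exact (main τ hτ s').2

end key

section swap

variable {K : Type} [Field K]

/-- the form with the two factors exchanged -/
def sw (c : Fin 5 → Fin 5 → K) : Fin 5 → Fin 5 → K := fun i j => c j i

theorem F4_sw (c : Fin 5 → Fin 5 → K) (x y : Fin 2 → K) : F4 (sw c) x y = F4 c y x :=
  (bq_cx c y x).symm

theorem smooth_sw {c : Fin 5 → Fin 5 → K} (hc : Smooth c) : Smooth (sw c) :=
  fun x y hx hy h1 h2 => hc y x hy hx h2 h1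

/-- the special lines and the lines which give singular curves -/
def ES (c : Fin 5 → Fin 5 → K) : Set K :=
  {s | dF (cy c ![1, s]) = 0 ∨ ¬ ND (cy c ![1, s]) (gd c s)}

/-- the points with a direction which is not torsion, on a good line -/
def Good (c : Fin 5 → Fin 5 → K) (s t : K) : Prop :=
  (s ∉ ES c ∧ ¬ TorY c s t) ∨ (t ∉ ES (sw c) ∧ ¬ TorX c s t)

/-- the rational points of the surface -/
def SP (c : Fin 5 → Fin 5 → K) : Set (Fin 3 → K) := {u | u 0 ^ 2 = F4 c ![1, u 1] ![1, u 2]}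

end swap

section mz

open Pool.Agent.TH729.CV

variable {K : Type} [Field K] [NumberField K]

theorem locA_eq {L : Type} [NontriviallyNormedField L] [CompleteSpace L] [CharZero L] (σ : K →+* L)
    (c : Fin 5 → Fin 5 → K) (x : Fin 3 → L) :
    locA σ c x = (IA σ (SP c) x : Set (MvPolynomial (Fin 3) K)) := by
  ext f
  exact mem_IA_iff.symm

theorem nhd {L : Type} [NontriviallyNormedField L] (σ : K →+* L) {u : Fin 3 → K}
    {U : Set (Fin 3 → L)} (hU : U ∈ 𝓝 (fun i => σ (u i))) :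
    ∃ ε : ℝ, 0 < ε ∧ ∀ v : Fin 3 → K, (∀ i, ‖σ (v i - u i)‖ < ε) → (fun i => σ (v i)) ∈ U := by
  obtain ⟨ε, hε, h⟩ := Metric.mem_nhds_iff.1 hU
  refine ⟨ε, hε, fun v hv => h ?_⟩
  rw [Metric.mem_ball, dist_pi_lt_iff hε]
  intro i
  rw [dist_eq_norm, ← map_sub]
  exact hv i

theorem van (h2 : S_THB) (h4 : S_SPE) {c : Fin 5 → Fin 5 → K} (hc : Smooth c) {L : Type}
    [NontriviallyNormedField L] [ProperSpace L] [CompleteSpace L] [CharZero L] (σ : K →+* L)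
    {u : Fin 3 → K} (hu0 : u 0 ≠ 0) (hu : u ∈ SP c) (hg : Good c (u 1) (u 2))
    {f : MvPolynomial (Fin 3) K} (hf : f ∈ IA σ (SP c) (fun i => σ (u i))) {u' : Fin 3 → K}
    (hu' : u' ∈ SP c) : MvPolynomial.eval u' f = 0 := by
  obtain ⟨G, H, hG, hH, hGH⟩ := dec c f
  obtain ⟨U, hU, hfU⟩ := mem_IA_iff.1 hf
  obtain ⟨ε, hε, hUε⟩ := nhd σ hU
  have hE1 : (ES c).Finite := (h4 K c hc).2
  have hE2 : (ES (sw c)).Finite := (h4 K (sw c) (smooth_sw hc)).2
  have h0 : ∀ s' t' w' : K, ‖σ (s' - u 1)‖ < ε → ‖σ (t' - u 2)‖ < ε → ‖σ (w' - u 0)‖ < ε →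
      w' ^ 2 = F4 c ![1, s'] ![1, t'] → G s' t' + w' * H s' t' = 0 := by
    intro s' t' w' a1 a2 a3 a4
    have e := hGH ![w', s', t'] a4
    have e' : MvPolynomial.eval ![w', s', t'] f = 0 := by
      apply hfU _ a4
      apply hUε
      intro i
      fin_cases i
      · exact a3
      · exact a1
      · exact a2
    rw [e'] at e
    exact e.symm
  have h5 : ∀ s' t', G s' t' = 0 ∧ H s' t' = 0 := by
    rcases hg with ⟨g1, g2⟩ | ⟨g1, g2⟩
    · have g1' : ¬ (dF (cy c ![1, u 1]) = 0 ∨ ¬ ND (cy c ![1, u 1]) (gd c (u 1))) := g1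
      rw [not_or, not_not] at g1'
      exact key σ hu0 hu g1'.1 (h2 K c (u 1) g1'.2) (hE2.subset fun t ht => Or.inl ht) g2 hG hH hε h0
    · have g1' : ¬ (dF (cy (sw c) ![1, u 2]) = 0 ∨ ¬ ND (cy (sw c) ![1, u 2]) (gd (sw c) (u 2))) := g1
      rw [not_or, not_not] at g1'
      have h6 := key (c := sw c) (s := u 2) (t := u 1) σ hu0
        (by rw [F4_sw]; exact hu) g1'.1 (h2 K (sw c) (u 2) g1'.2)
        (hE1.subset fun t ht => Or.inl ht) g2 hG.swap hH.swap hε (fun s' t' w' a1 a2 a3 a4 =>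
          h0 t' s' w' a2 a1 a3 (by rw [← F4_sw]; exact a4))
      exact fun s' t' => h6 t' s'
  rw [hGH u' hu', (h5 _ _).1, (h5 _ _).2, mul_zero, add_zero]

theorem FA_singleton {L : Type} [NontriviallyNormedField L] [CompleteSpace L] [CharZero L]
    (σ : K →+* L) (y : Fin 3 → K) : FA σ ({y} : Set (Fin 3 → K)) := by
  apply FA.of_conn'
  rintro _ rfl f hf _ rfl
  obtain ⟨U, hU, h⟩ := mem_IA_iff.1 hf
  exact h _ rfl (mem_of_mem_nhds hU)

theorem FA_finite {L : Type} [NontriviallyNormedField L] [CompleteSpace L] [CharZero L]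
    (σ : K →+* L) {D : Set (Fin 3 → K)} (hD : D.Finite) : FA σ D := by
  have h := FA.biUnion (σ := σ) hD.toFinset (D := fun y => {y}) fun y _ => FA_singleton σ y
  have e : (⋃ i ∈ hD.toFinset, ({i} : Set (Fin 3 → K))) = D := by
    ext y
    simp
  rwa [e] at h

theorem sq_finite (v : K) : {w : K | w ^ 2 = v}.Finite := by
  by_cases h : ∃ w₀ : K, w₀ ^ 2 = v
  · obtain ⟨w₀, rfl⟩ := h
    refine ((Set.finite_singleton w₀).union (Set.finite_singleton (-w₀))).subset ?_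
    intro w hw
    rcases sq_eq_sq_iff_eq_or_eq_neg.1 hw with h | h
    · exact Or.inl h
    · exact Or.inr h
  · push Not at h
    rw [Set.eq_empty_of_forall_notMem (s := {w : K | w ^ 2 = v}) h]
    exact Set.finite_empty

/-- **finitely many local ideals on a curve of genus one** -/
theorem curve_FA {L : Type} [NontriviallyNormedField L] [ProperSpace L] [CompleteSpace L]
    [CharZero L] (σ : K →+* L) {a : Fin 5 → K} (hd : dF a ≠ 0) (φ : K → K → (Fin 3 → K))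
    (hφ : ∀ w r w' r' i, ‖σ (φ w' r' i - φ w r i)‖ ≤ max ‖σ (w' - w)‖ ‖σ (r' - r)‖)
    (hpol : ∀ f : MvPolynomial (Fin 3) K, ∃ G H : K → K, PF1 G ∧ PF1 H ∧ ∀ w r : K,
      w ^ 2 = bq a ![1, r] → MvPolynomial.eval (φ w r) f = G r + w * H r) :
    FA σ {y | ∃ w r : K, w ^ 2 = bq a ![1, r] ∧ y = φ w r} := by
  have hsep : (qpol (a 0) (a 1) (a 2) (a 3) (a 4)).Separable := by
    rw [← pq_eq]
    exact PerfectField.separable_iff_squarefree.2 (squarefree_of_dc hd)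
  have hdeg : 3 ≤ (qpol (a 0) (a 1) (a 2) (a 3) (a 4)).natDegree := by
    by_contra hlt
    push Not at hlt
    rw [← pq_eq] at hlt
    exact hd (dc_low a hlt)
  obtain ⟨T, hT, hq⟩ := quartic_near hsep hdeg
  have hbq : ∀ t, (qpol (a 0) (a 1) (a 2) (a 3) (a 4)).eval t = bq a ![1, t] := by
    intro t
    rw [eval_qpol, bq_one]
  have e : {y | ∃ w r : K, w ^ 2 = bq a ![1, r] ∧ y = φ w r} =
      {y | ∃ w r : K, w ^ 2 = bq a ![1, r] ∧ r ∉ T ∧ y = φ w r} ∪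
      {y | ∃ w r : K, w ^ 2 = bq a ![1, r] ∧ r ∈ T ∧ y = φ w r} := by
    ext y
    constructor
    · rintro ⟨w, r, h1, h2⟩
      by_cases h3 : r ∈ T
      · exact Or.inr ⟨w, r, h1, h3, h2⟩
      · exact Or.inl ⟨w, r, h1, h3, h2⟩
    · rintro (⟨w, r, h1, -, h2⟩ | ⟨w, r, h1, -, h2⟩)
      · exact ⟨w, r, h1, h2⟩
      · exact ⟨w, r, h1, h2⟩
  rw [e]
  apply FA.union
  · apply FA.of_conn'
    rintro _ ⟨w, r, h1, h2, rfl⟩ f hf _ ⟨w', r', g1, g2, rfl⟩
    obtain ⟨G, H, hG, hH, hGH⟩ := hpol f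
    obtain ⟨U, hU, hfU⟩ := mem_IA_iff.1 hf
    obtain ⟨ε, hε, hUε⟩ := nhd σ hU
    obtain ⟨hq1, hq2⟩ := hq r h2
    have hw : w ≠ 0 := by
      rintro rfl
      rw [hbq, ← h1] at hq1
      exact hq1 (by ring)
    have hinf : {τ : K | ‖σ τ‖ < ε ∧ ∃ Y : K, ‖σ (Y - w)‖ < ε ∧ Y ^ 2 = bq a ![1, r + τ]}.Infinite := by
      apply infinite_small σ
      intro δ hδ
      obtain ⟨t, Y, k1, k2, k3, k4⟩ := hq2 σ 1 w hw (by rw [one_mul, hbq, h1]) (min δ ε)
        (lt_min hδ hε)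
      rw [one_mul, hbq] at k4
      exact ⟨t, k1, k2.trans_le (min_le_left _ _), k2.trans_le (min_le_right _ _), Y,
        k3.trans_le (min_le_right _ _), k4⟩
    have hinf2 := hinf.sdiff (hT.preimage ((add_right_injective r).injOn))
    have h6 := sq_lemma hd hG hH (by
      refine (hinf2.image ((add_right_injective r).injOn)).mono ?_
      rintro _ ⟨τ, ⟨⟨k1, Y, k2, k3⟩, k4⟩, rfl⟩
      refine ⟨Y, by rw [k3, bq_one], ?_⟩
      rw [← hGH Y (r + τ) k3]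
      refine hfU _ ⟨Y, r + τ, k3, k4, rfl⟩ (hUε _ fun i => ?_)
      refine (hφ _ _ _ _ i).trans_lt (max_lt k2 ?_)
      rwa [add_sub_cancel_left])
    rw [hGH w' r' g1, h6.1, h6.2, mul_zero, add_zero]
  · apply FA_finite
    refine (hT.biUnion fun r _ => (sq_finite (bq a ![1, r])).image fun w => φ w r).subset ?_
    rintro _ ⟨w, r, h1, h2, rfl⟩
    rw [Set.mem_iUnion₂]
    exact ⟨r, h2, w, h1, rfl⟩

theorem FA_s {L : Type} [NontriviallyNormedField L] [ProperSpace L] [CompleteSpace L]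
    [CharZero L] (σ : K →+* L) {c : Fin 5 → Fin 5 → K} {s : K} (hd : dF (cy c ![1, s]) ≠ 0) :
    FA σ {y | y ∈ SP c ∧ y 1 = s} := by
  have h := curve_FA σ hd (fun w r => ![w, s, r]) (by
    intro w r w' r' i
    fin_cases i
    · exact le_max_left _ _
    · change ‖σ (s - s)‖ ≤ _
      rw [sub_self, map_zero, norm_zero]
      exact (norm_nonneg _).trans (le_max_left _ _)
    · exact le_max_right _ _) (by
    intro f
    obtain ⟨G, H, hG, hH, hGH⟩ := dec c f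
    refine ⟨G s, H s, hG.2 s, hH.2 s, fun w r hw => ?_⟩
    exact hGH ![w, s, r] (by rw [← bq_cx] at hw; exact hw))
  have e : {y | y ∈ SP c ∧ y 1 = s} = {y : Fin 3 → K | ∃ w r : K, w ^ 2 = bq (cy c ![1, s]) ![1, r] ∧
      y = ![w, s, r]} := by
    ext y
    constructor
    · rintro ⟨h1, rfl⟩
      refine ⟨y 0, y 2, ?_, ?_⟩
      · rw [← bq_cx]
        exact h1
      · funext i
        fin_cases i <;> rfl
    · rintro ⟨w, r, h1, rfl⟩
      refine ⟨?_, rfl⟩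
      rw [← bq_cx] at h1
      exact h1
  rw [e]
  exact h

theorem FA_t {L : Type} [NontriviallyNormedField L] [ProperSpace L] [CompleteSpace L]
    [CharZero L] (σ : K →+* L) {c : Fin 5 → Fin 5 → K} {t : K} (hd : dF (cx c ![1, t]) ≠ 0) :
    FA σ {y | y ∈ SP c ∧ y 2 = t} := by
  have h := curve_FA σ hd (fun w r => ![w, r, t]) (by
    intro w r w' r' i
    fin_cases i
    · exact le_max_left _ _
    · exact le_max_right _ _
    · change ‖σ (t - t)‖ ≤ _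
      rw [sub_self, map_zero, norm_zero]
      exact (norm_nonneg _).trans (le_max_left _ _)) (by
    intro f
    obtain ⟨G, H, hG, hH, hGH⟩ := dec c f
    exact ⟨fun r => G r t, fun r => H r t, hG.1 t, hH.1 t, fun w r hw => hGH ![w, r, t] hw⟩)
  have e : {y | y ∈ SP c ∧ y 2 = t} = {y : Fin 3 → K | ∃ w r : K, w ^ 2 = bq (cx c ![1, t]) ![1, r] ∧
      y = ![w, r, t]} := by
    ext y
    constructor
    · rintro ⟨h1, rfl⟩
      refine ⟨y 0, y 1, h1, ?_⟩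
      funext i
      fin_cases i <;> rfl
    · rintro ⟨w, r, h1, rfl⟩
      exact ⟨h1, rfl⟩
  rw [e]
  exact h

theorem FA_pts {L : Type} [NontriviallyNormedField L] [CompleteSpace L]
    [CharZero L] (σ : K →+* L) (c : Fin 5 → Fin 5 → K) {Φ : Set (K × K)} (hΦ : Φ.Finite) :
    FA σ {y | y ∈ SP c ∧ (y 1, y 2) ∈ Φ} := by
  apply FA_finite
  refine (hΦ.biUnion fun z _ => (sq_finite (F4 c ![1, z.1] ![1, z.2])).image
    fun w => (![w, z.1, z.2] : Fin 3 → K)).subset ?_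
  rintro y ⟨h1, h2⟩
  rw [Set.mem_iUnion₂]
  refine ⟨_, h2, y 0, h1, ?_⟩
  funext i
  fin_cases i <;> rfl

/-- the bad pairs -/
def Φ₀ (c : Fin 5 → Fin 5 → K) : Set (K × K) :=
  (ES c ×ˢ ES (sw c)) ∪ {z | TorX c z.1 z.2 ∧ TorY c z.1 z.2} ∪
    ({z | z.1 ∈ ES c ∧ dF (cy c ![1, z.1]) = 0 ∧ TorX c z.1 z.2} ∪
      {z | z.2 ∈ ES (sw c) ∧ dF (cx c ![1, z.2]) = 0 ∧ TorY c z.1 z.2})

theorem Φ₀_finite (h1 : S_THA) (h2 : S_THB) (h3 : S_SNG) (h4 : S_SPE) {c : Fin 5 → Fin 5 → K}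
    (hc : Smooth c) : (Φ₀ c).Finite := by
  have hc' := smooth_sw hc
  have hE1 : (ES c).Finite := (h4 K c hc).2
  have hE2 : (ES (sw c)).Finite := (h4 K (sw c) hc').2
  refine ((hE1.prod hE2).union (h1 K c hc)).union (Set.Finite.union ?_ ?_)
  · have h5 : ∀ s ∈ {s ∈ ES c | dF (cy c ![1, s]) = 0}, ((fun t => (s, t)) '' {t | TorX c s t}).Finite := by
      rintro s ⟨-, hs⟩
      exact (h2 K c s (h3 K c hc s ((h4 K c hc).1 s) hs)).image _
    refine ((hE1.subset (Set.sep_subset _ _)).biUnion h5).subset ?_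
    rintro ⟨s, t⟩ ⟨a1, a2, a3⟩
    rw [Set.mem_iUnion₂]
    exact ⟨s, ⟨a1, a2⟩, t, a3, rfl⟩
  · have h5 : ∀ t ∈ {t ∈ ES (sw c) | dF (cy (sw c) ![1, t]) = 0},
        ((fun s => (s, t)) '' {s | TorX (sw c) t s}).Finite := by
      rintro t ⟨-, ht⟩
      exact (h2 K (sw c) t (h3 K (sw c) hc' t ((h4 K (sw c) hc').1 t) ht)).image _
    refine ((hE2.subset (Set.sep_subset _ _)).biUnion h5).subset ?_
    rintro ⟨s, t⟩ ⟨a1, a2, a3⟩
    rw [Set.mem_iUnion₂]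
    exact ⟨t, ⟨a1, a2⟩, s, a3, rfl⟩

/-- the bad points -/
def BS (c : Fin 5 → Fin 5 → K) (Φ : Set (K × K)) : Set (Fin 3 → K) :=
  {y | y ∈ SP c ∧ (y 1, y 2) ∈ Φ} ∪ ({y | y ∈ SP c ∧ y 1 ∈ ES c ∧ dF (cy c ![1, y 1]) ≠ 0} ∪
    {y | y ∈ SP c ∧ y 2 ∈ ES (sw c) ∧ dF (cx c ![1, y 2]) ≠ 0})

theorem good_of_not_bad {c : Fin 5 → Fin 5 → K} {Φ : Set (K × K)} (hΦ : Φ₀ c ⊆ Φ)
    {y : Fin 3 → K} (hy : y ∈ SP c) (hB : y ∉ BS c Φ) : Good c (y 1) (y 2) := by
  rw [BS, Set.mem_union, Set.mem_union, not_or, not_or] at hB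
  obtain ⟨b1, b2, b3⟩ := hB
  have b1' : (y 1, y 2) ∉ Φ₀ c := fun h => b1 ⟨hy, hΦ h⟩
  rw [Φ₀, Set.mem_union, Set.mem_union, Set.mem_union, not_or, not_or, not_or] at b1'
  obtain ⟨⟨d1, d2⟩, d3, d4⟩ := b1'
  by_cases e1 : y 1 ∈ ES c
  · have f1 : dF (cy c ![1, y 1]) = 0 := by
      by_contra h
      exact b2 ⟨hy, e1, h⟩
    exact Or.inr ⟨fun h => d1 ⟨e1, h⟩, fun h => d3 ⟨e1, f1, h⟩⟩
  · by_cases e2 : y 2 ∈ ES (sw c)
    · have f2 : dF (cx c ![1, y 2]) = 0 := by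
        by_contra h
        exact b3 ⟨hy, e2, h⟩
      exact Or.inl ⟨e1, fun h => d4 ⟨e2, f2, h⟩⟩
    · by_cases e3 : TorX c (y 1) (y 2)
      · exact Or.inl ⟨e1, fun h => d2 ⟨e3, h⟩⟩
      · exact Or.inr ⟨e2, e3⟩

theorem FA_BS (h4 : S_SPE) {c : Fin 5 → Fin 5 → K} (hc : Smooth c) {Φ : Set (K × K)} (hΦ : Φ.Finite)
    {L : Type} [NontriviallyNormedField L] [ProperSpace L] [CompleteSpace L]
    [CharZero L] (σ : K →+* L) : FA σ (BS c Φ) := by
  have hE1 : {s ∈ ES c | dF (cy c ![1, s]) ≠ 0}.Finite := ((h4 K c hc).2).subset (Set.sep_subset _ _)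
  have hE2 : {t ∈ ES (sw c) | dF (cx c ![1, t]) ≠ 0}.Finite :=
    ((h4 K (sw c) (smooth_sw hc)).2).subset (Set.sep_subset _ _)
  refine FA.union (FA_pts σ c hΦ) (FA.union ?_ ?_)
  · have h := FA.biUnion (σ := σ) hE1.toFinset (D := fun s => {y | y ∈ SP c ∧ y 1 = s}) fun s hs =>
      FA_s σ (hE1.mem_toFinset.1 hs).2
    have e : (⋃ s ∈ hE1.toFinset, {y : Fin 3 → K | y ∈ SP c ∧ y 1 = s}) =
        {y | y ∈ SP c ∧ y 1 ∈ ES c ∧ dF (cy c ![1, y 1]) ≠ 0} := by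
      ext y
      rw [Set.mem_iUnion₂]
      constructor
      · rintro ⟨s, hs, a1, rfl⟩
        exact ⟨a1, hE1.mem_toFinset.1 hs⟩
      · rintro ⟨a1, a2⟩
        exact ⟨y 1, hE1.mem_toFinset.2 a2, a1, rfl⟩
    rwa [e] at h
  · have h := FA.biUnion (σ := σ) hE2.toFinset (D := fun t => {y | y ∈ SP c ∧ y 2 = t}) fun t ht =>
      FA_t σ (hE2.mem_toFinset.1 ht).2
    have e : (⋃ t ∈ hE2.toFinset, {y : Fin 3 → K | y ∈ SP c ∧ y 2 = t}) =
        {y | y ∈ SP c ∧ y 2 ∈ ES (sw c) ∧ dF (cx c ![1, y 2]) ≠ 0} := by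
      ext y
      rw [Set.mem_iUnion₂]
      constructor
      · rintro ⟨s, hs, a1, rfl⟩
        exact ⟨a1, hE2.mem_toFinset.1 hs⟩
      · rintro ⟨a1, a2⟩
        exact ⟨y 2, hE2.mem_toFinset.2 a2, a1, rfl⟩
    rwa [e] at h

end mz

/-- **MZA: Mazur's question for the affine surfaces.** -/
theorem mza (h1 : S_THA) (h2 : S_THB) (h3 : S_SNG) (h4 : S_SPE) : S_MZA := by
  intro K _ _ c hc
  refine ⟨ES c, ES (sw c), {z | TorX c z.1 z.2 ∧ TorY c z.1 z.2}, (h4 K c hc).2,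
    (h4 K (sw c) (smooth_sw hc)).2, h1 K c hc, ?_⟩
  intro L _ _ σ hσ
  have : CharZero L := charZero_of_injective_ringHom σ.injective
  have : ProperSpace L := Pool.Agent.W279.Tri.properSpace_of_denseRange σ hσ
  have hfin : ∀ Ω : Set (Fin 3 → L), Pool.Agent.Y720.MZ.FAon σ (SP c) Ω →
      {J | ∃ x ∈ Ω, J = locA σ c x}.Finite := by
    intro Ω h
    refine (Set.Finite.image (fun I : Ideal (MvPolynomial (Fin 3) K) =>
      (I : Set (MvPolynomial (Fin 3) K))) h).subset ?_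
    rintro _ ⟨x, hx, rfl⟩
    exact ⟨_, ⟨x, hx, rfl⟩, (locA_eq σ c x).symm⟩
  refine ⟨?_, ?_, ?_⟩
  · intro u hu0 hu a1 a2 a3 f hf u' hu'
    rw [locA_eq] at hf
    refine van h2 h4 hc σ hu0 hu ?_ hf hu'
    by_cases b : TorX c (u 1) (u 2)
    · exact Or.inl ⟨a1, fun h => a3 ⟨b, h⟩⟩
    · exact Or.inr ⟨a2, b⟩
  · have h := fin_abstract (σ := σ) (S := SP c) (B := BS c (Φ₀ c)) (Ω := {x : Fin 3 → L | x 0 ≠ 0})
      (isOpen_ne_fun (continuous_apply 0) continuous_const) (by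
        rintro y (⟨hy, -⟩ | ⟨hy, -⟩ | ⟨hy, -⟩) <;> exact hy) (by
        intro y hy hB hΩ f hf y' hy'
        refine van h2 h4 hc σ ?_ hy (good_of_not_bad subset_rfl hy hB) hf hy'
        intro h0
        apply hΩ
        change σ (y 0) = 0
        rw [h0, map_zero])
      (Pool.Agent.Y720.MZ.FA.on (FA_BS h4 hc (Φ₀_finite h1 h2 h3 h4 hc) σ) _)
    refine (hfin _ h).subset ?_
    rintro J ⟨x, hx, -, hJ⟩
    exact ⟨x, hx, hJ⟩
  · intro hF
    have hΦ : (Φ₀ c ∪ {z : K × K | F4 c ![1, z.1] ![1, z.2] = 0}).Finite :=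
      (Φ₀_finite h1 h2 h3 h4 hc).union hF
    have h := fin_abstract (σ := σ) (S := SP c)
      (B := BS c (Φ₀ c ∪ {z : K × K | F4 c ![1, z.1] ![1, z.2] = 0})) (Ω := (Set.univ : Set (Fin 3 → L)))
      isOpen_univ (by
        rintro y (⟨hy, -⟩ | ⟨hy, -⟩ | ⟨hy, -⟩) <;> exact hy) (by
        intro y hy hB hΩ f hf y' hy'
        refine van h2 h4 hc σ ?_ hy (good_of_not_bad Set.subset_union_left hy hB) hf hy'
        intro h0
        apply hB
        left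
        refine ⟨hy, Or.inr ?_⟩
        change F4 c ![1, y 1] ![1, y 2] = 0
        rw [← (show y 0 ^ 2 = F4 c ![1, y 1] ![1, y 2] from hy), h0]
        ring)
      (Pool.Agent.Y720.MZ.FA.on (FA_BS h4 hc hΦ σ) _)
    refine (hfin _ h).subset ?_
    rintro J ⟨x, -, hJ⟩
    exact ⟨x, Set.mem_univ _, hJ⟩

end Pool.Agent.Q149.TT
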